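import Pool.Agent.N77.CP.Fin

/-!
# Groups acting on trees with commensurable stabilizers which may have a centre

`C` is any class of groups with the closure properties `ClosedE C` which contains the metabelian
groups; all of this is published for the class of the groups which satisfy the Full Farrell–Jones
Conjecture.

Let `G` act on a tree, let `N` be a normal subgroup of `G` with `G ⧸ N` in `C`, and let `N_x` be the
stabilizer of the vertex `x` in `N`. Suppose that `N_x ∩ N_y` has finite index in `N_y` for adjacent
vertices `x`, `y`, and that no `N_x` has a nontrivial finite normal subgroup. Let `o` be a vertex.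

(1) If the abstract commensurator `Comm N_o` is in `C`, or if there is a homomorphism from `G` to some
group in `C` such that each element of the kernel centralizes a subgroup of finite index of `N_o`, then
`G` is in `C`.

(2) If `C` contains the groups `GL_m(ℚ)` and `N_o` is virtually polycyclic (contains a torsion-free
solvable subgroup of finite index all of whose subgroups are finitely generated), then `G` is in `C`.

For `N = G` these are the fundamental groups of graphs of groups in which the edge groups have finite
index in the vertex groups, for instance generalized Baumslag–Solitar groups with polycyclic vertex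
groups.

Outline of the proof.

* An element `z` of the kernel of the homomorphism in (1) which lies in `N_x` has a centralizer of finite
  index in `N_x`. If it has finite order it generates a finite normal subgroup (Dietzmann's lemma), so
  `z = 1`. So these elements form a torsion-free group with finite conjugacy classes, which is abelian by
  the theorem of Schur. Now the theorem `MP_2a0850_gt.EdgeGroupsInHomology` on edge groups which embed in
  the first homology of the vertex groups applies.
* For (2) let `P` be a torsion-free polycyclic subgroup of `G` commensurated by `G`. Chains of subgroups
  of `P` have a bounded number of steps of infinite index, so one can replace `P` by a subgroup of finite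
  index such that `[R, R]` has finite index in `E = [P, P]` for all `R` of finite index in `P`. Then the
  homomorphisms `R → ℚ` extend to `P`, so `G` acts on the finite-dimensional space `Hom(P, ℚ)`, and `E` is
  commensurated by `G`. By induction on the derived length there is a homomorphism `ρ` from `G` to a group
  in `C` whose kernel centralizes subgroups of finite index of `E`. An element `g` of the kernel `S` of `ρ`
  and of the action on `Hom(P, ℚ)` maps `x` in a subgroup of finite index of `P` to `d_g(x) x`, where `d_g(x)` is
  in the torsion-free abelian group of the elements of the isolator of `E` whose centralizers have finite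
  index in it, and `d_{gh} = d_g d_h`. So the commutators of elements of `S` centralize subgroups of finite
  index of `P`, and `G` modulo the elements of `S` with this property is an extension of a group in `C` by an
  abelian group.
-/

set_option autoImplicit false

namespace Pool.Agent.Results.MP_490288_al.CommensurableStabilizersOnTrees

open Pool.Agent.Y110.FJ (ClosedE)
open Pool.Agent.N24.CM (Comm)

theorem result {C : ∀ (G : Type) [Group G], Prop} (hC : ClosedE C)
    (hM : ∀ (G : Type) [Group G], derivedSeries G 2 = ⊥ → C G)
    {G V : Type} [Group G] [MulAction G V] (T : SimpleGraph V) (hT : T.IsTree)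
    (hact : ∀ (g : G) (x y : V), T.Adj x y → T.Adj (g • x) (g • y))
    (N : Subgroup G) [N.Normal] (hQ : C (G ⧸ N))
    (hfin : ∀ x y : V, T.Adj x y →
      (N ⊓ MulAction.stabilizer G x).relIndex (N ⊓ MulAction.stabilizer G y) ≠ 0)
    (hfn : ∀ (x : V) (F : Subgroup ↥(N ⊓ MulAction.stabilizer G x)), F.Normal → Finite F → F = ⊥)
    (o : V) :
    ((C (Comm ↥(N ⊓ MulAction.stabilizer G o)) ∨
      ∃ (Q : Type) (_ : Group Q) (ρ : G →* Q), C Q ∧ ∀ g : G, ρ g = 1 →
        (Subgroup.centralizer {g}).relIndex (N ⊓ MulAction.stabilizer G o) ≠ 0) → C G) ∧
    ((∀ m : ℕ, C (Matrix.GeneralLinearGroup (Fin m) ℚ)) →
      (∃ P : Subgroup G, P ≤ N ⊓ MulAction.stabilizer G o ∧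
        P.relIndex (N ⊓ MulAction.stabilizer G o) ≠ 0 ∧ Group.IsSolvable P ∧
        (∀ H : Subgroup P, H.FG) ∧ ∀ (x : P) (n : ℕ), 0 < n → x ^ n = 1 → x = 1) → C G) :=
  Pool.Agent.N77.CP.final hC hM T hT hact N hQ hfin hfn o

end Pool.Agent.Results.MP_490288_al.CommensurableStabilizersOnTrees
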