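import Pool.Agent.N510.LT.IntF

set_option autoImplicit false

/-! The exact critical norm for quadratic forms over integral group rings: nonsingular forms below the
norm `3 / √2` are integral, and all forms are simply isometric, after adding hyperbolic planes, to
forms whose norm is as close to `3 / √2` as one likes. -/

namespace Pool.Agent.Results.MP_490288_al.CriticalNormForms

open Matrix

section defs

variable {Γ : Type} [Group Γ]

/-- the adjoint (conjugate transpose) of a matrix over `ℤΓ`, for the involution `g ↦ g⁻¹` -/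
noncomputable def adjoint {κ μ : Type} (A : Matrix κ μ (MonoidAlgebra ℤ Γ)) :
    Matrix μ κ (MonoidAlgebra ℤ Γ) :=
  Matrix.of fun j i => MonoidAlgebra.mapDomain (fun g => g⁻¹) (A i j)

/-- the `ε`-symmetric form `λ = ψ + εψ*` of the `ε`-quadratic form `ψ` -/
noncomputable def symmetrization {κ : Type} (ε : ℤ) (ψ : Matrix κ κ (MonoidAlgebra ℤ Γ)) :
    Matrix κ κ (MonoidAlgebra ℤ Γ) := ψ + ε • adjoint ψ

/-- `|A|`: the matrix over `ℝΓ` of the absolute values of the coefficients of `A` -/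
noncomputable def absMatrix {κ μ : Type} (A : Matrix κ μ (MonoidAlgebra ℤ Γ)) :
    Matrix κ μ (MonoidAlgebra ℝ Γ) :=
  A.map fun x => MonoidAlgebra.ofCoeff (x.coeff.mapRange (fun n : ℤ => |(n : ℝ)|) (by simp))

/-- the squared `ℓ²`-norm of a finitely supported vector in `ℓ²(Γ)^κ` -/
noncomputable def normSq {κ : Type} [Fintype κ] (x : κ → MonoidAlgebra ℝ Γ) : ℝ :=
  ∑ i, ∑ g ∈ (x i).coeff.support, (x i).coeff g ^ 2

/-- The operator norm of `|A|` on the row vectors in `ℓ²(Γ)^κ` is at most `|c|`. -/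
def AbsNormLE {κ μ : Type} [Fintype κ] [Fintype μ] (A : Matrix κ μ (MonoidAlgebra ℤ Γ)) (c : ℝ) :
    Prop := ∀ x : κ → MonoidAlgebra ℝ Γ, normSq (x ᵥ* absMatrix A) ≤ c ^ 2 * normSq x

/-- the square matrix `x` over `ℤΓ` is zero in the Whitehead group: stabilised by an identity block,
it is `± g` on one diagonal entry times a product of commutators of invertible matrices -/
def ZeroInWh {κ : Type} [Fintype κ] [DecidableEq κ]
    (x : Matrix κ κ (MonoidAlgebra ℤ Γ)) : Prop :=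
  ∃ (m : ℕ) (g : Γ) (ε : ℤˣ)
    (C : (Matrix (κ ⊕ Fin (m + 1)) (κ ⊕ Fin (m + 1)) (MonoidAlgebra ℤ Γ))ˣ),
    C ∈ commutator (Matrix (κ ⊕ Fin (m + 1)) (κ ⊕ Fin (m + 1)) (MonoidAlgebra ℤ Γ))ˣ ∧
    Matrix.fromBlocks x 0 0 (1 : Matrix (Fin (m + 1)) (Fin (m + 1)) (MonoidAlgebra ℤ Γ)) =
      Matrix.diagonal (fun i : κ ⊕ Fin (m + 1) =>
          if i = Sum.inr (0 : Fin (m + 1)) then
            (MonoidAlgebra.single g ((ε : ℤ)) : MonoidAlgebra ℤ Γ) else 1) *
        (↑C : Matrix (κ ⊕ Fin (m + 1)) (κ ⊕ Fin (m + 1)) (MonoidAlgebra ℤ Γ))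

/-- simple isometry of `ε`-quadratic forms (matrices modulo the matrices `χ - εχ*`) -/
def SimplyIsometric {κ : Type} [Fintype κ] [DecidableEq κ] (ε : ℤ)
    (ψ ψ' : Matrix κ κ (MonoidAlgebra ℤ Γ)) : Prop :=
  ∃ (E : (Matrix κ κ (MonoidAlgebra ℤ Γ))ˣ) (χ : Matrix κ κ (MonoidAlgebra ℤ Γ)),
    ZeroInWh E.val ∧ E.val * ψ * adjoint E.val = ψ' + (χ - ε • adjoint χ)

/-- The sum of the planes with `q(x) = a k`, `q(y) = b k` and `λ(x, y) = 1`: the hyperbolic plane for
`a k = b k = 0`, the plane of Arf invariant one for `a k = b k = 1`. -/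
noncomputable def planes {μ : Type} [DecidableEq μ] (a b : μ → ℤ) :
    Matrix (μ ⊕ μ) (μ ⊕ μ) (MonoidAlgebra ℤ Γ) :=
  fromBlocks (diagonal fun k => MonoidAlgebra.single 1 (a k)) 1 0
    (diagonal fun k => MonoidAlgebra.single 1 (b k))

end defs

section aux

open TH57.Thr TH6.LF TH6.PF TH6.CX Pool.Agent.N510.LT

variable {Γ : Type} [Group Γ] {κ : Type} [Fintype κ] [DecidableEq κ]

theorem adjoint_eq {κ μ : Type} (A : Matrix κ μ (MonoidAlgebra ℤ Γ)) :
    adjoint A = sadj (1 : Γ →* ℤˣ) A := by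
  ext1 j i
  change TH6.LF.bar (A i j) = sbar (1 : Γ →* ℤˣ) (A i j)
  ext g
  rw [coeff_bar, coeff_sbar]
  change _ = (((1 : Γ →* ℤˣ) g : ℤˣ) : ℤ) • (A i j).coeff g⁻¹
  rw [MonoidHom.one_apply, Units.val_one, one_smul]

theorem simple_of_iso {ε : ℤ} {ψ ψ' : Matrix κ κ (MonoidAlgebra ℤ Γ)}
    (h : GIso (1 : Γ →* ℤˣ) (TU Γ) ε ψ ψ') : SimplyIsometric ε ψ ψ' := by
  obtain ⟨E, χ, h1, h2⟩ := h
  refine ⟨E, χ, TT_explicit E h1, ?_⟩
  rw [adjoint_eq, adjoint_eq]
  exact h2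

omit [Fintype κ] [DecidableEq κ] in
theorem sym_eq (ε : ℤ) (ψ : Matrix κ κ (MonoidAlgebra ℤ Γ)) :
    symmetrization ε ψ = glam (1 : Γ →* ℤˣ) ε ψ := by
  unfold symmetrization glam
  rw [adjoint_eq]

omit [Fintype κ] [DecidableEq κ] in
theorem absMatrix_eq (A : Matrix κ κ (MonoidAlgebra ℤ Γ)) :
    absMatrix A = toReal (szm Int.natAbs rfl A) := by
  ext i j g
  simp only [toReal, Matrix.map_apply, MonoidAlgebra.coeff_mapRingHom, szm, coeff_sz]
  change |(((A i j).coeff g : ℤ) : ℝ)| = (((((A i j).coeff g).natAbs : ℕ) : ℤ) : ℝ)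
  rw [Int.natCast_natAbs, Int.cast_abs]

theorem norm_iff (A : Matrix κ κ (MonoidAlgebra ℤ Γ)) (c : ℝ) :
    AbsNormLE A c ↔ NormLE (szm Int.natAbs rfl A) c := by
  unfold AbsNormLE NormLE
  rw [absMatrix_eq]
  rfl

end aux

open Pool.Agent.N510.LT in
/-- Let `Γ` be a group and `ε = ±1`. (1) If `Γ` has no element of order two (for instance, if it is
torsion-free), each nonsingular `ε`-quadratic form `ψ` over `ℤΓ` with `λ = ψ + εψ*` such that the
operator norm of `|λ|` is less than `3 / √2` is, up to the order of the basis, simply isometric to a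
sum of planes defined over `ℤ`, which are all hyperbolic if `ε = 1`. (2) The constant is sharp: for
every real `c > 3 / √2`, each `ε`-quadratic form over `ℤΓ` is, after adding hyperbolic planes, simply
isometric to a form for which all coefficients of `λ` are `0` or `± 1` and the operator norm of `|λ|`
is at most `c`. -/
theorem result (Γ : Type) [Group Γ] (ε : ℤ) (hε : ε = 1 ∨ ε = -1) :
    ((∀ g : Γ, g * g = 1 → g = 1) → ∀ c : ℝ, c < 3 / Real.sqrt 2 → 0 ≤ c →
      ∀ (κ : Type) [Fintype κ] [DecidableEq κ] (ψ : Matrix κ κ (MonoidAlgebra ℤ Γ)),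
        IsUnit (symmetrization ε ψ) → AbsNormLE (symmetrization ε ψ) c →
        ∃ (m : ℕ) (e : Fin m ⊕ Fin m ≃ κ) (a b : Fin m → ℤ),
          (∀ k, (a k = 0 ∨ a k = 1) ∧ (b k = 0 ∨ b k = 1)) ∧
          (ε = 1 → ∀ k, a k = 0 ∧ b k = 0) ∧
          SimplyIsometric ε (ψ.submatrix e e) (planes a b)) ∧
    ∀ c : ℝ, 3 / Real.sqrt 2 < c →
      ∀ (κ : Type) [Fintype κ] [DecidableEq κ] (ψ : Matrix κ κ (MonoidAlgebra ℤ Γ)),
        ∃ (m : ℕ) (φ : Matrix (κ ⊕ (Fin m ⊕ Fin m)) (κ ⊕ (Fin m ⊕ Fin m)) (MonoidAlgebra ℤ Γ)),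
          SimplyIsometric ε (fromBlocks ψ 0 0 (planes (fun _ => 0) (fun _ => 0))) φ ∧
          (∀ i j g, |(symmetrization ε φ i j).coeff g| ≤ 1) ∧
          AbsNormLE (symmetrization ε φ) c := by
  classical
  have hr0 : 0 < Real.sqrt 2 := Real.sqrt_pos.2 two_pos
  have hr2 : Real.sqrt 2 ^ 2 = 2 := Real.sq_sqrt two_pos.le
  have h3 : (3 / Real.sqrt 2) ^ 2 = 9 / 2 := by rw [div_pow, hr2]; norm_num
  have h3p : 0 < 3 / Real.sqrt 2 := div_pos (by norm_num) hr0
  refine ⟨fun htf c hc hc0 κ _ _ ψ hu hN => ?_, fun c hc κ _ _ ψ => ?_⟩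
  · -- a positive constant below the critical one
    set d := (c + 3 / Real.sqrt 2) / 2 with hd
    have hd0 : 0 < d := by positivity
    have hcd : c ≤ d := by rw [hd]; linarith
    have hd2 : d ^ 2 < 9 / 2 := by
      rw [← h3]
      exact pow_lt_pow_left₀ (by rw [hd]; linarith) hd0.le two_ne_zero
    rw [sym_eq] at hu hN
    have hN' : TH57.Thr.NormLE (szm Int.natAbs rfl (glam (1 : Γ →* ℤˣ) ε ψ)) d := by
      intro x
      refine ((norm_iff _ _).1 hN x).trans (mul_le_mul_of_nonneg_right ?_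
        (TH57.Thr.normSq_nonneg x))
      exact pow_le_pow_left₀ hc0 hcd 2
    obtain ⟨m, e, a, b, h1, h2, h4⟩ := int_main (1 : Γ →* ℤˣ) htf hε hd0 hd2 ψ hu hN'
    exact ⟨m, e, a, b, h1, h2, simple_of_iso h4⟩
  · have hc0 : 0 < c := h3p.trans hc
    have hc2 : 9 / 2 < c ^ 2 := by
      rw [← h3]
      exact pow_lt_pow_left₀ hc h3p.le two_ne_zero
    obtain ⟨m, φ, hφ⟩ := int_reduction (1 : Γ →* ℤˣ) hc0 hc2 ψ
    obtain ⟨h1, h2, h4⟩ := hφ ε hε
    refine ⟨m, φ, ?_, ?_, ?_⟩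
    · have h5 : (planes (fun _ => 0) (fun _ => 0) : Matrix (Fin m ⊕ Fin m) (Fin m ⊕ Fin m)
          (MonoidAlgebra ℤ Γ)) = fromBlocks 0 1 0 0 := by
        ext1 x y
        rcases x with x | x <;> rcases y with y | y <;> simp [planes]
      rw [h5]
      exact simple_of_iso h1
    · intro i j g
      rw [sym_eq]
      by_cases h : (glam (1 : Γ →* ℤˣ) ε φ i j).coeff g = 0
      · rw [h]; norm_num
      · rcases h2 i j g h with h5 | h5 <;> rw [h5] <;> norm_num
    · rw [sym_eq, norm_iff]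
      exact h4

end Pool.Agent.Results.MP_490288_al.CriticalNormForms
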