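import Pool.Agent.N24.LM.Idl

/-!
# Extensions with kernels in the unit groups of locally semisimple algebras

`C` is any class of groups with the closure properties `ClosedE C`, all of which are known for the
class of the groups that satisfy the Full Farrell–Jones Conjecture.

Let `N` be a normal subgroup of `G`, let `N` and `G ⧸ N` be in `C`. Suppose that for each `g` in `G` of
infinite order modulo `N` there are a field `K` such that all `GL_d(K)` are in `C`, a `K`-algebra `A` in
which every finite subset lies in a finite-dimensional semisimple subalgebra, an embedding of `N` in
the group of units of `A` and an automorphism `α` of the `K`-algebra `A` which extends the conjugation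
by `g` on `N`, such that one of the following holds.

* There are no two-sided ideals invariant under `α` except `0` and `A` (`NoInvariantIdeal`). For
  instance `A` may be any simple algebra, like the direct limits of the matrix algebras
  `M_{n(1)}(K) ⊂ M_{n(2)}(K) ⊂ ...` for `n(i) ∣ n(i+1)`; then there is no condition on `α`.
* `A` is spanned by `1` and an ideal `I` invariant under `α`, and the nonzero idempotents in `I` have
  positive values under dimension functions on `I` which are invariant under `α`
  (`HasInvariantDimensions`). A dimension function is nonnegative, additive on orthogonal idempotents
  and satisfies `δ (x y) = δ (y x)` on the idempotents `x y`, `y x`. For instance `A = I` is the group algebra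
  of a locally finite group `L` without elements of order `char K`, with the trace, and `α` is induced
  by an automorphism of `L`; or `I` is the algebra of all linear endomorphisms of finite rank of a
  vector space, with the rank.

Then `G` is in `C`.

Outline of the proof. Let `E` be a finite subset of `N`, let `B₀` be a finite-dimensional semisimple
subalgebra containing the image of `E` and its inverses, and `B` one containing `B₀` and `α B₀`. It is
enough that the partial automorphism `α : B₀ → α B₀` of `B` is inner in some faithful
representation of `B` of finite degree, because then the conjugation by `g` on `E` is realized in some
`GL_d(K)`. Modules over `B₀` are isomorphic if all idempotents have equal ranks on them. The rank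
functions of the simple `B`-modules are a basis of the space of functions on the idempotents of `B`
which are additive and satisfy `δ (x y) = δ (y x)`. So one needs a combination of these rank functions
with positive integral coefficients which has the same values on `e` and `α e` for all idempotents
`e` of `B₀`. It exists if there is one with positive real coefficients, because the linear equations
for the coefficients are integral. In the second case the combination is given by the dimension
functions. In the first case it is a limit of the averages of the normalized ranks along the orbits
of `α` in large finite-dimensional subalgebras; the limit has positive coefficients because `1` is a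
sum of finitely many products `a (α ^ k) e b`, for each minimal idempotent `e` of `B`.
-/

set_option autoImplicit false

namespace Pool.Agent.Results.MP_490288_al.LocallySemisimpleKernels

open Pool.Agent.Y110.FJ Pool.Agent.N24.LM

theorem result (C : ∀ (G : Type) [Group G], Prop) (hC : ClosedE C)
    (G : Type) [Group G] (N : Subgroup G) [hN : N.Normal] (hCN : C N) (hQ : C (G ⧸ N))
    (h : ∀ g : G, (∀ n : ℕ, 0 < n → g ^ n ∉ N) →
      ∃ (K A : Type) (_ : Field K) (_ : Ring A) (_ : Algebra K A) (u : N →* Aˣ) (α : A ≃ₐ[K] A),
        (∀ d : ℕ, C (Matrix.GeneralLinearGroup (Fin d) K)) ∧ LocallySemisimple K A ∧
        Function.Injective u ∧ (∀ n : N, α (u n) = u ⟨g * n * g⁻¹, hN.conj_mem n n.2 g⟩) ∧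
        (NoInvariantIdeal α ∨ HasInvariantDimensions α)) : C G :=
  main hC G N hCN hQ h

end Pool.Agent.Results.MP_490288_al.LocallySemisimpleKernels
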