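import Pool.Agent.N24.TR.GL

/-!
# Unit groups of algebras of two by two matrices and the Farrell-Jones conjecture

`C` is any class of groups with the closure properties `ClosedE C`, all of which are known for the
class of the groups that satisfy the K- and L-theoretic Farrell-Jones conjecture with coefficients
and finite wreath products. `K` is a field such that all the groups `GL_m(K)` are in `C`.

Let `D` be a division ring with a discrete valuation `v`, and let `Λ` be a `K`-algebra with a ring
homomorphism `j` to the ring of the two by two matrices over `D`, such that for every `n` the
elements `x` of `Λ` for which all entries of `j x` have valuation at least `- n` span a subspace of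
finite dimension. If `Λ` is residually finite-dimensional, then the unit group of `Λ` is in `C`.

For instance, `Λ` can be the ring of the two by two matrices over the coordinate ring of an affine
curve over `K` with one point at infinity, or of the complement of an ample prime divisor in a normal
projective variety over `K`.

Outline of the proof. The unit group acts on the tree of `D` and `v`. Its vertices are the classes of
the norms on `D²` which are diagonal in some basis. The elements of the stabilizer of a vertex (or
their inverses) have entries whose valuations are bounded below, so they lie in a subspace of finite
dimension, and some homomorphism from `Λ` to a finite-dimensional algebra is injective on it. A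
finitely generated subgroup `G` acts with finitely many orbits on the subtree which is spanned by the
orbit of a vertex. So there is a homomorphism from `G` to some `GL_m(K)` which is injective on the
stabilizers of all vertices of the subtree, and with the paths in the tree it gives an embedding of
`G` in a group `F(X) ⋊ P`, where `P` is in `C` and acts on the set `X`. These groups are in `C`.
-/

set_option autoImplicit false

namespace Pool.Agent.Results.MP_490288_al.MatrixUnitGroups

open Pool.Agent.Y110.FJ (ClosedE)

theorem result {C : ∀ (G : Type) [Group G], Prop} (hC : ClosedE C)
    {K Λ D : Type} [Field K] [Ring Λ] [Algebra K Λ] [DivisionRing D]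
    (hK : ∀ m : ℕ, C (Matrix.GeneralLinearGroup (Fin m) K))
    (v : AddValuation D (WithTop ℤ)) (j : Λ →+* Matrix (Fin 2) (Fin 2) D)
    (hfin : ∀ n : ℕ, FiniteDimensional K (Submodule.span K
      {x : Λ | ∀ a b, ((-(n : ℤ) : ℤ) : WithTop ℤ) ≤ v (j x a b)}))
    (hres : ∀ x : Λ, x ≠ 0 → ∃ (B : Type) (_ : Ring B) (_ : Algebra K B) (φ : Λ →ₐ[K] B),
      FiniteDimensional K B ∧ φ x ≠ 0) :
    C Λˣ :=
  Pool.Agent.N24.TR.units_main hC hK v j hfin hres

end Pool.Agent.Results.MP_490288_al.MatrixUnitGroups
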